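import Pool.Agent.Helper77.HY.St

/-!
# MP_7a9ddc_co, project HY, module PC: the inequality for a piece
-/

set_option autoImplicit false

namespace Pool.Agent.Helper74.HY.PC

open Pool.Agent.Helper35.PM Pool.Agent.Helper77.HY

section

variable {V : Type} (G : SimpleGraph V) (I K : Set V) (S : Finset V)
  (C : Finset (Set V)) (U : Finset V) (q : V → Set V)

/-- the vertices of the auxiliary graph -/
abbrev WW : Type := {u // u ∈ U} ⊕ ({s // s ∈ S} ⊕ {Q // Q ∈ C})

/-- the adjacency of the auxiliary graph -/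
def adjW : WW S C U → WW S C U → Prop
  | .inl u, .inl v => G.Adj u.1 v.1 ∧ s(u.1, v.1) ∉ badEdges G I K S
  | .inl u, .inr (.inl s) => G.Adj u.1 s.1
  | .inr (.inl s), .inl u => G.Adj u.1 s.1
  | .inl u, .inr (.inr Q) => (∃ x ∈ I, G.Adj u.1 x) ∧ Q.1 = q u.1
  | .inr (.inr Q), .inl u => (∃ x ∈ I, G.Adj u.1 x) ∧ Q.1 = q u.1
  | .inr _, .inr _ => False

/-- the auxiliary graph -/
def HH : SimpleGraph (WW S C U) where
  Adj := adjW G I K S C U q
  symm := ⟨by
    rintro (u | s | Q) (v | s' | Q') h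
    · exact ⟨h.1.symm, by rw [Sym2.eq_swap]; exact h.2⟩
    all_goals exact h⟩
  loopless := ⟨by
    rintro (u | s | Q) h
    · exact h.1.ne rfl
    · exact h
    · exact h⟩

/-- the connected sets -/
def BB : WW S C U → Set V
  | .inl u => {u.1}
  | .inr (.inl s) => {s.1}
  | .inr (.inr Q) => Q.1

theorem conn_singleton (v : V) : (G.induce ({v} : Set V)).Connected := by
  have : Subsingleton (({v} : Set V) : Type) := by
    constructor
    rintro ⟨a, ha⟩ ⟨b, hb⟩
    exact Subtype.ext ((Set.mem_singleton_iff.1 ha).trans (Set.mem_singleton_iff.1 hb).symm)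
  have : Nonempty (({v} : Set V) : Type) := ⟨⟨v, rfl⟩⟩
  exact SimpleGraph.Connected.mk (fun a b => by rw [Subsingleton.elim a b])

theorem planar_HH [Finite V] (hMinor : StMinor) (hP : Planar G) (hSK : (S : Set V) ⊆ K)
    (hC1 : ∀ Q ∈ C, (G.induce Q).Connected ∧ Disjoint Q K)
    (hC2 : ∀ Q ∈ C, ∀ Q' ∈ C, Q ≠ Q' → Disjoint Q Q')
    (hU : (U : Set V) ⊆ K \ (S : Set V))
    (hq : ∀ u ∈ K \ (S : Set V), (∃ x ∈ I, G.Adj u x) → q u ∈ C ∧ ∃ x ∈ q u, x ∈ I ∧ G.Adj u x) :
    Planar (HH G I K S C U q) := by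
  apply hMinor V (WW S C U) G (HH G I K S C U q) (BB S C U) hP
  · rintro (u | s | Q)
    · exact conn_singleton G u.1
    · exact conn_singleton G s.1
    · exact (hC1 Q.1 Q.2).1
  · have h1 : ∀ u : {u // u ∈ U}, ∀ s : {s // s ∈ S}, u.1 ≠ s.1 := by
      intro u s h
      exact (hU u.2).2 (h ▸ s.2)
    have h2 : ∀ u : {u // u ∈ U}, ∀ Q : {Q // Q ∈ C}, u.1 ∉ Q.1 := by
      intro u Q h
      exact Set.disjoint_left.1 (hC1 Q.1 Q.2).2 h (hU u.2).1
    have h3 : ∀ u : {s // s ∈ S}, ∀ Q : {Q // Q ∈ C}, u.1 ∉ Q.1 := by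
      intro u Q h
      exact Set.disjoint_left.1 (hC1 Q.1 Q.2).2 h (hSK u.2)
    rintro (u | s | Q) (v | s' | Q') h
    · apply Set.disjoint_singleton.2
      intro h'
      exact h (by rw [Subtype.ext h'])
    · exact Set.disjoint_singleton.2 (h1 _ _)
    · exact Set.disjoint_singleton_left.2 (h2 _ _)
    · exact Set.disjoint_singleton.2 (h1 _ _).symm
    · apply Set.disjoint_singleton.2
      intro h'
      exact h (by rw [Subtype.ext h'])
    · exact Set.disjoint_singleton_left.2 (h3 _ _)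
    · exact Set.disjoint_singleton_right.2 (h2 _ _)
    · exact Set.disjoint_singleton_right.2 (h3 _ _)
    · apply hC2 Q.1 Q.2 Q'.1 Q'.2
      intro h'
      exact h (by rw [Subtype.ext h'])
  · rintro (u | s | Q) (v | s' | Q') h
    · exact ⟨u.1, rfl, v.1, rfl, h.1⟩
    · exact ⟨u.1, rfl, s'.1, rfl, h⟩
    · obtain ⟨-, x, hx, -, hux⟩ := hq u.1 (hU u.2) h.1
      exact ⟨u.1, rfl, x, by show x ∈ Q'.1; rw [h.2]; exact hx, hux⟩
    · exact ⟨s.1, rfl, v.1, rfl, (show G.Adj v.1 s.1 from h).symm⟩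
    · exact h.elim
    · exact h.elim
    · obtain ⟨-, x, hx, -, hux⟩ := hq v.1 (hU v.2) h.1
      exact ⟨x, by show x ∈ Q.1; rw [h.2]; exact hx, v.1, rfl, hux.symm⟩
    · exact h.elim
    · exact h.elim

theorem tf_HH (hTF : TF G) (hU : (U : Set V) ⊆ K \ (S : Set V)) : TF (HH G I K S C U q) := by
  have bad : ∀ u v : {u // u ∈ U}, G.Adj u.1 v.1 → (∃ x ∈ I, G.Adj u.1 x) →
      (∃ x ∈ I, G.Adj v.1 x) → s(u.1, v.1) ∈ badEdges G I K S := by
    intro u v huv hu hv
    refine ⟨huv, ?_⟩
    intro w hw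
    rcases Sym2.mem_iff.1 hw with rfl | rfl
    · exact ⟨hU u.2, hu⟩
    · exact ⟨hU v.2, hv⟩
  rintro (a | a | a) (b | b | b) (c | c | c) hab hbc hac
  · exact hTF _ _ _ hab.1 hbc.1 hac.1
  · exact hTF _ _ _ hab.1 hbc hac
  · exact hab.2 (bad a b hab.1 hac.1 hbc.1)
  · exact hTF _ _ _ hac.1 hbc hab
  · exact hbc
  · exact hbc
  · exact hac.2 (bad a c hac.1 hab.1 hbc.1)
  · exact hbc
  · exact hbc
  · exact hTF _ _ _ hbc.1 hac hab
  · exact hac
  · exact hac
  · exact hab
  · exact hab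
  · exact hab
  · exact hab
  · exact hab
  · exact hab
  · exact hbc.2 (bad b c hbc.1 hab.1 hac.1)
  · exact hac
  · exact hac
  · exact hab
  · exact hab
  · exact hab
  · exact hab
  · exact hab
  · exact hab

/-- edges inside `U` -/
theorem eN_le [Finite V] [DecidableEq (WW S C U)] (hne : ∀ Q ∈ C, Q.Nonempty) :
    eN G U ≤ eN (HH G I K S C U q) (Finset.univ.image Sum.inl) + (badEdges G I K S).ncard := by
  classical
  have hg : ∃ g : WW S C U → V, ∀ u, g (.inl u) = u.1 := by
    have h2 : ∀ w : WW S C U, ∃ v : V, ∀ u, w = .inl u → v = u.1 := by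
      rintro (u | s | Q)
      · exact ⟨u.1, fun v h => by rw [Sum.inl.inj h]⟩
      · exact ⟨s.1, fun v h => by cases h⟩
      · exact ⟨(hne Q.1 Q.2).choose, fun v h => by cases h⟩
    choose g hg using h2
    exact ⟨g, fun u => hg _ u rfl⟩
  obtain ⟨g, hg⟩ := hg
  have hsub : {e : Sym2 V | e ∈ G.edgeSet ∧ ∀ v ∈ e, v ∈ U} ⊆
      (Sym2.map g) '' {e : Sym2 (WW S C U) | e ∈ (HH G I K S C U q).edgeSet ∧
        ∀ v ∈ e, v ∈ (Finset.univ.image Sum.inl : Finset (WW S C U))} ∪ badEdges G I K S := by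
    intro e he
    by_cases hb : e ∈ badEdges G I K S
    · exact Or.inr hb
    left
    induction e using Sym2.ind with
    | _ u v =>
      have hu : u ∈ U := he.2 u (Sym2.mem_mk_left _ _)
      have hv : v ∈ U := he.2 v (Sym2.mem_mk_right _ _)
      refine ⟨s(.inl ⟨u, hu⟩, .inl ⟨v, hv⟩), ⟨⟨he.1, hb⟩, ?_⟩, ?_⟩
      · intro w hw
        rcases Sym2.mem_iff.1 hw with rfl | rfl
        · simp
        · simp
      · rw [Sym2.map_mk, hg, hg]
  calc eN G U ≤ _ := Set.ncard_le_ncard hsub (Set.toFinite _)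
    _ ≤ _ := Set.ncard_union_le _ _
    _ ≤ _ := Nat.add_le_add_right (Set.ncard_image_le (Set.toFinite _)) _

open Classical in
/-- edges to the other vertices -/
theorem dg_le [Finite V] [DecidableEq (WW S C U)] (u : {u // u ∈ U})
    (hq : (∃ x ∈ I, G.Adj u.1 x) → q u.1 ∈ C) :
    dg G u.1 S + (if ∃ x ∈ I, G.Adj u.1 x then 1 else 0) ≤
      dg (HH G I K S C U q) (.inl u) (Finset.univ.image Sum.inr) := by
  unfold dg
  have h1 : {v : V | v ∈ S ∧ G.Adj u.1 v}.ncard =
      {w : WW S C U | ∃ s : {s // s ∈ S}, w = .inr (.inl s) ∧ G.Adj u.1 s.1}.ncard := by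
    apply Set.ncard_congr (fun v hv => (.inr (.inl ⟨v, hv.1⟩) : WW S C U))
    · intro v hv
      exact ⟨_, rfl, hv.2⟩
    · intro v w hv hw h
      have h2 := Sum.inl.inj (Sum.inr.inj h)
      exact congrArg Subtype.val h2
    · rintro w ⟨s, rfl, hs⟩
      exact ⟨s.1, ⟨s.2, hs⟩, rfl⟩
  have hfin : (Set.univ : Set (WW S C U)).Finite := Set.toFinite _
  by_cases hN : ∃ x ∈ I, G.Adj u.1 x
  · rw [if_pos hN, h1]
    have h3 : (.inr (.inr ⟨q u.1, hq hN⟩) : WW S C U) ∉
        {w : WW S C U | ∃ s : {s // s ∈ S}, w = .inr (.inl s) ∧ G.Adj u.1 s.1} := by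
      rintro ⟨s, hs, -⟩
      cases hs
    rw [← Set.ncard_insert_of_notMem h3 (hfin.subset (Set.subset_univ _))]
    apply Set.ncard_le_ncard _ (hfin.subset (Set.subset_univ _))
    rintro w (rfl | ⟨s, rfl, hs⟩)
    · exact ⟨by simp, hN, rfl⟩
    · exact ⟨by simp, hs⟩
  · rw [if_neg hN, h1, add_zero]
    apply Set.ncard_le_ncard _ (hfin.subset (Set.subset_univ _))
    rintro w ⟨s, rfl, hs⟩
    exact ⟨by simp, hs⟩

end

/-- Module PC. -/
theorem main (hMinor : StMinor) (hEub : StEub) (hCnt : StCnt) : StPc := by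
  intro V _ G I K S C hP hTF hSK hC1 hC2 hI hb U hU
  classical
  obtain ⟨hc1, hc2, hc3, hc4⟩ := hCnt
  have hq0 : ∀ u, ∃ Q : Set V, u ∈ K \ (S : Set V) → (∃ x ∈ I, G.Adj u x) →
      Q ∈ C ∧ ∃ x ∈ Q, x ∈ I ∧ G.Adj u x := by
    intro u
    by_cases h : u ∈ K \ (S : Set V) ∧ ∃ x ∈ I, G.Adj u x
    · obtain ⟨hu, x, hx, hux⟩ := h
      obtain ⟨Q, hQ, hxQ⟩ := hI u hu x hx hux
      exact ⟨Q, fun _ _ => ⟨hQ, x, hxQ, hx, hux⟩⟩
    · exact ⟨∅, fun h1 h2 => (h ⟨h1, h2⟩).elim⟩
  choose q hq using hq0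
  have hne : ∀ Q ∈ C, Q.Nonempty := by
    intro Q hQ
    have := (hC1 Q hQ).1.nonempty
    exact Set.nonempty_coe_sort.1 this
  -- the number of vertices with a neighbour in `I`
  have hN : {u : V | u ∈ U ∧ ∃ x ∈ I, G.Adj u x}.ncard =
      ∑ u ∈ U, (if ∃ x ∈ I, G.Adj u x then 1 else 0) := by
    rw [← Finset.card_filter, ← Set.ncard_coe_finset]
    congr 1
    ext u
    simp
  rw [hN, add_assoc, ← Finset.sum_add_distrib]
  -- the count
  set H := HH G I K S C U q with hH
  have hpl : Planar H := planar_HH G I K S C U q hMinor hP hSK hC1 hC2 hU (fun u hu => hq u hu)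
  have htf : TF H := tf_HH G I K S C U q hTF hU
  have hdisj : Disjoint (Finset.univ.image Sum.inr : Finset (WW S C U))
      (Finset.univ.image Sum.inl) := by
    rw [Finset.disjoint_left]
    intro w hw hw'
    rw [Finset.mem_image] at hw hw'
    obtain ⟨a, -, rfl⟩ := hw
    obtain ⟨b, -, hb⟩ := hw'
    cases hb
  have hcount : eN G U + ∑ u ∈ U, (dg G u S + if ∃ x ∈ I, G.Adj u x then 1 else 0) ≤
      eN H Finset.univ + (badEdges G I K S).ncard := by
    have h1 := hc2 (WW S C U) H (Finset.univ.image Sum.inr) (Finset.univ.image Sum.inl) hdisj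
    have h2 := hc1 (WW S C U) H (Finset.univ.image Sum.inr ∪ Finset.univ.image Sum.inl)
      Finset.univ (Finset.subset_univ _)
    have h3 := eN_le G I K S C U q hne
    rw [← hH] at h3
    have h4 : ∑ u ∈ U, (dg G u S + if ∃ x ∈ I, G.Adj u x then 1 else 0) ≤
        ∑ t ∈ (Finset.univ.image Sum.inl : Finset (WW S C U)),
          dg H t (Finset.univ.image Sum.inr) := by
      rw [Finset.sum_image (fun a _ b _ h => Sum.inl.inj h),
        ← Finset.sum_coe_sort U]
      apply Finset.sum_le_sum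
      intro u _
      exact dg_le G I K S C U q u (fun h => (hq u.1 (hU u.2) h).1)
    omega
  have hcard : Fintype.card (WW S C U) = U.card + (S.card + C.card) := by
    simp [WW]
  by_cases h3 : 3 ≤ U.card + (S.card + C.card)
  · have h4 := (hEub (WW S C U) H hpl htf).1 (by rw [hcard]; exact h3)
    rw [hcard] at h4
    omega
  · -- small cases
    rcases Finset.eq_empty_or_nonempty U with rfl | hUne
    · simp only [Finset.sum_empty, Finset.card_empty]
      have : eN G ∅ = 0 := by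
        unfold eN
        rw [Set.ncard_eq_zero (Set.toFinite _), Set.eq_empty_iff_forall_notMem]
        intro e he
        induction e using Sym2.ind with
        | _ u v => exact absurd (he.2 u (Sym2.mem_mk_left _ _)) (by simp)
      omega
    have hU1 : 1 ≤ U.card := hUne.card_pos
    have hterm : ∀ u ∈ U, (dg G u S + if ∃ x ∈ I, G.Adj u x then 1 else 0) ≤
        S.card + C.card := by
      intro u hu
      have h5 : dg G u S ≤ S.card := by
        unfold dg
        rw [← Set.ncard_coe_finset S]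
        exact Set.ncard_le_ncard (fun v hv => hv.1) (Set.toFinite _)
      split_ifs with h6
      · have : 0 < C.card := Finset.card_pos.2 ⟨_, (hq u (hU hu) h6).1⟩
        omega
      · omega
    have hsum : ∑ u ∈ U, (dg G u S + if ∃ x ∈ I, G.Adj u x then 1 else 0) ≤
        U.card * (S.card + C.card) := by
      rw [← smul_eq_mul]
      exact Finset.sum_le_card_nsmul _ _ _ hterm
    have heN : eN G U ≤ U.card - 1 := by
      rcases (by omega : U.card = 1 ∨ U.card = 2) with h7 | h7
      · obtain ⟨a, rfl⟩ := Finset.card_eq_one.1 h7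
        rw [h7]
        apply le_of_eq
        unfold eN
        rw [Nat.sub_self, Set.ncard_eq_zero (Set.toFinite _), Set.eq_empty_iff_forall_notMem]
        intro e he
        induction e using Sym2.ind with
        | _ u v =>
          have hu := Finset.mem_singleton.1 (he.2 u (Sym2.mem_mk_left _ _))
          have hv := Finset.mem_singleton.1 (he.2 v (Sym2.mem_mk_right _ _))
          have h8 : G.Adj u v := he.1
          rw [hu, hv] at h8
          exact h8.ne rfl
      · obtain ⟨a, b, hab, rfl⟩ := Finset.card_eq_two.1 h7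
        rw [h7]
        unfold eN
        have : {e : Sym2 V | e ∈ G.edgeSet ∧ ∀ v ∈ e, v ∈ ({a, b} : Finset V)} ⊆ {s(a, b)} := by
          intro e he
          induction e using Sym2.ind with
          | _ u v =>
            have hu := he.2 u (Sym2.mem_mk_left _ _)
            have hv := he.2 v (Sym2.mem_mk_right _ _)
            have h8 : G.Adj u v := he.1
            simp only [Finset.mem_insert, Finset.mem_singleton] at hu hv
            rcases hu with rfl | rfl <;> rcases hv with rfl | rfl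
            · exact (h8.ne rfl).elim
            · rfl
            · exact Sym2.eq_swap
            · exact (h8.ne rfl).elim
        calc _ ≤ ({s(a, b)} : Set (Sym2 V)).ncard := Set.ncard_le_ncard this (Set.toFinite _)
          _ = 2 - 1 := by rw [Set.ncard_singleton]
    rcases (by omega : U.card = 1 ∨ U.card = 2) with h7 | h7
    · rw [h7] at hsum heN ⊢
      omega
    · have h9 : S.card + C.card = 0 := by omega
      rw [h7, h9] at hsum
      rw [h7] at heN ⊢
      omega

end Pool.Agent.Helper74.HY.PC
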